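import Mathlib

set_option autoImplicit false

/-!
# Central series with infinite cyclic factors
-/

namespace Pool.Agent.H36Top

/-- `N` has a central series `1 = S 0 ≤ S 1 ≤ … ≤ S d = N` all of whose `d` factors are infinite
cyclic. This holds if and only if `N` is a finitely generated torsion-free nilpotent group of Hirsch
length `d`. -/
def HasSeries (N : Type) [Group N] (d : ℕ) : Prop :=
  ∃ S : ℕ → Subgroup N, S 0 = ⊥ ∧ S d = ⊤ ∧ ∀ i < d, S i ≤ S (i + 1) ∧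
    (∀ g : N, ∀ s ∈ S (i + 1), g * s * g⁻¹ * s⁻¹ ∈ S i) ∧
    ∃ τ ∈ S (i + 1), (∀ s ∈ S (i + 1), ∃ k : ℤ, s * τ ^ k ∈ S i) ∧ ∀ k : ℤ, τ ^ k ∈ S i → k = 0

end Pool.Agent.H36Top
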