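import Pool.Agent.H36Top.Wang
import Pool.Agent.H36Top.SeriesDefs

set_option autoImplicit false

/-!
# The top class of a torsion-free nilpotent group
-/

namespace Pool.Agent.H36Top

open Pool.Agent.AutDim3

theorem exists_height {N : Type} [Group N] (S S' : Subgroup N)
    (hn : ∀ g : N, ∀ s ∈ S, g * s * g⁻¹ ∈ S) (hle : S ≤ S') (τ : N) (hτ : τ ∈ S')
    (h1 : ∀ s ∈ S', ∃ k : ℤ, s * τ ^ k ∈ S) (h2 : ∀ k : ℤ, τ ^ k ∈ S → k = 0) :
    ∃ κ : N → ℤ, (∀ s ∈ S, ∀ p, κ (s * p) = κ p) ∧ ∀ p, κ (τ * p) = κ p + 1 := by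
  classical
  set r : N → N := fun p => Quotient.out (Quotient.mk (QuotientGroup.rightRel S') p) with hr
  have hr1 : ∀ p, p * (r p)⁻¹ ∈ S' := by
    intro p
    have := Quotient.exact (Quotient.out_eq (Quotient.mk (QuotientGroup.rightRel S') p))
    exact QuotientGroup.rightRel_apply.mp this
  have hr2 : ∀ t ∈ S', ∀ p, r (t * p) = r p := by
    intro t ht p
    simp only [hr]
    congr 1
    apply Quotient.sound
    show (QuotientGroup.rightRel S') (t * p) p
    rw [QuotientGroup.rightRel_apply]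
    have : p * (t * p)⁻¹ = t⁻¹ := by group
    rw [this]
    exact S'.inv_mem ht
  choose! k hk using h1
  have huniq : ∀ t ∈ S', ∀ j : ℤ, t * τ ^ j ∈ S → j = k t := by
    intro t ht j hj
    have h3 := hk t ht
    have h4 : τ ^ (j - k t) ∈ S := by
      have : τ ^ (j - k t) = τ ^ (-(k t)) * ((t * τ ^ (k t)) ⁻¹ * (t * τ ^ j)) * (τ ^ (-(k t)))⁻¹ := by
        rw [zpow_sub, zpow_neg]
        group
      rw [this]
      exact hn _ _ (S.mul_mem (S.inv_mem h3) hj)
    have := h2 _ h4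
    linarith
  refine ⟨fun p => - k (p * (r p)⁻¹), ?_, ?_⟩
  · intro s hs p
    simp only []
    rw [hr2 s (hle hs) p]
    congr 1
    symm
    apply huniq _ (by rw [mul_assoc]; exact S'.mul_mem (hle hs) (hr1 p))
    rw [mul_assoc, mul_assoc, ← mul_assoc p]
    exact S.mul_mem hs (hk _ (hr1 p))
  · intro p
    simp only []
    rw [hr2 τ hτ p]
    have h3 : k (p * (r p)⁻¹) - 1 = k (τ * p * (r p)⁻¹) := by
      apply huniq _ (by rw [mul_assoc]; exact S'.mul_mem hτ (hr1 p))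
      have h4 := hn τ _ (hk _ (hr1 p))
      have : τ * p * (r p)⁻¹ * τ ^ (k (p * (r p)⁻¹) - 1) =
          τ * (p * (r p)⁻¹ * τ ^ k (p * (r p)⁻¹)) * τ⁻¹ := by
        rw [zpow_sub_one]
        group
      rw [this]
      exact h4
    rw [← h3]
    ring

/-- The facts about the members of a central series. -/
theorem all_steps {N : Type} [Group N] {d : ℕ} (S : ℕ → Subgroup N) (h0 : S 0 = ⊥)
    (hS : ∀ i < d, S i ≤ S (i + 1) ∧
      (∀ g : N, ∀ s ∈ S (i + 1), g * s * g⁻¹ * s⁻¹ ∈ S i) ∧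
      ∃ τ ∈ S (i + 1), (∀ s ∈ S (i + 1), ∃ k : ℤ, s * τ ^ k ∈ S i) ∧
        ∀ k : ℤ, τ ^ k ∈ S i → k = 0) :
    ∀ i ≤ d, (∀ g : N, ∀ s ∈ S i, g * s * g⁻¹ ∈ S i) ∧ (∀ m, Van (S i) (i + 2 + m)) ∧
      DimOne (S i) (i + 1) ∧ ∃ ν : Ch N →ₗ[ℝ] ℝ, Top (S i) (i + 1) ν := by
  intro i
  induction i with
  | zero =>
    intro _
    rw [h0]
    refine ⟨?_, ?_, dim_bot, top_bot⟩
    · intro g s hs
      rw [Subgroup.mem_bot] at hs ⊢
      rw [hs]
      group
    · intro m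
      have := van_bot (N := N) m
      rwa [show 0 + 2 + m = m + 2 by ring]
  | succ i ih =>
    intro hi
    obtain ⟨hn, hv, hd, ν, hν⟩ := ih (by omega)
    obtain ⟨hle, hc, τ, hτ, h1, h2⟩ := hS i (by omega)
    obtain ⟨κ, hκ1, hκ2⟩ := exists_height (S i) (S (i + 1)) hn hle τ hτ h1 h2
    have T : WStep (S i) (S (i + 1)) τ κ :=
      { norm := hn
        kS := hκ1
        kt := hκ2
        tmem := hτ
        le := hle
        le' := by
          intro s hs
          obtain ⟨k, hk⟩ := h1 s hs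
          have : s = (s * τ ^ k) * (τ ^ k)⁻¹ := by group
          rw [this]
          exact mul_mem (Subgroup.mem_sup_left hk)
            (Subgroup.mem_sup_right (inv_mem (Subgroup.zpow_mem_zpowers _ _))) }
    refine ⟨?_, ?_, ?_, ?_⟩
    · intro g s hs
      have : g * s * g⁻¹ = (g * s * g⁻¹ * s⁻¹) * s := by group
      rw [this]
      exact (S (i + 1)).mul_mem (hle (hc g s hs)) hs
    · intro m
      have h3 := hv (m + 1)
      have h4 := hv m
      have := van_step T (n := i + 1 + m) (by rwa [show i + 1 + m + 2 = i + 2 + (m + 1) by ring])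
        (by rwa [show i + 1 + m + 1 = i + 2 + m by ring])
      rwa [show i + 1 + 2 + m = i + 1 + m + 2 by ring]
    · exact dim_step T (n := i) (hv 0) hd
    · exact top_step T (fun g => hc g τ hτ) hd hν

theorem exists_factor {V W : Type} [AddCommGroup V] [Module ℝ V] [AddCommGroup W] [Module ℝ W]
    (q : V →ₗ[ℝ] W) (ν : V →ₗ[ℝ] ℝ) (h : ∀ v, q v = 0 → ν v = 0) :
    ∃ f : W →ₗ[ℝ] ℝ, f ∘ₗ q = ν := by
  have h1 : ν ∈ (LinearMap.ker q).dualAnnihilator := by
    rw [Submodule.mem_dualAnnihilator]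
    intro w hw
    exact h w hw
  rw [← LinearMap.range_dualMap_eq_dualAnnihilator_ker] at h1
  obtain ⟨f, hf⟩ := h1
  exact ⟨f, hf⟩

/-- A cocycle which is not exact is non-zero on some cycle. -/
theorem exists_cycle {N : Type} [Group N] {n : ℕ} (ν : Ch N →ₗ[ℝ] ℝ)
    (hν : ¬ WEx (⊤ : Subgroup N) (n + 2) ν) :
    ∃ z : Ch N, z ∈ Deg (G := N) (n + 2) ∧
      (∀ E : Ch N →ₗ[ℝ] ℝ, InvUnder (MonoidHom.id N) E → E (bd z) = 0) ∧ ν z = 1 := by
  set R : Submodule ℝ (Ch N) := Submodule.span ℝ {x | ∃ (g : N) (l : List N), l.length = n + 1 ∧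
    x = sg (l.map (g * ·)) - sg l} with hR
  set q : (Deg (G := N) (n + 2)) →ₗ[ℝ] (Ch N ⧸ R) :=
    R.mkQ ∘ₗ bd ∘ₗ (Deg (G := N) (n + 2)).subtype with hq
  set ν' : (Deg (G := N) (n + 2)) →ₗ[ℝ] ℝ := ν ∘ₗ (Deg (G := N) (n + 2)).subtype with hν'
  by_cases hex : ∃ w : Deg (G := N) (n + 2), q w = 0 ∧ ν' w ≠ 0
  · obtain ⟨w, hw1, hw2⟩ := hex
    refine ⟨(ν' w)⁻¹ • (w : Ch N), Submodule.smul_mem _ _ w.2, ?_, ?_⟩
    · intro E hE
      have h1 : bd (w : Ch N) ∈ R := by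
        have : R.mkQ (bd (w : Ch N)) = 0 := hw1
        rwa [Submodule.mkQ_apply, Submodule.Quotient.mk_eq_zero] at this
      have h2 : R ≤ LinearMap.ker E := by
        rw [hR, Submodule.span_le]
        rintro _ ⟨g, l, _, rfl⟩
        rw [SetLike.mem_coe, LinearMap.mem_ker, map_sub]
        have := hE g l
        simp only [MonoidHom.id_apply] at this
        rw [this, sub_self]
      rw [map_smul, map_smul]
      have : E (bd (w : Ch N)) = 0 := h2 h1
      rw [this, smul_zero]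
    · rw [map_smul, smul_eq_mul]
      exact inv_mul_cancel₀ hw2
  · exfalso
    push Not at hex
    apply hν
    obtain ⟨f, hf⟩ := exists_factor (V := (Deg (G := N) (n + 2))) (W := (Ch N ⧸ R)) q ν' hex
    refine ⟨lev (n + 1) (f ∘ₗ R.mkQ), ?_, lev_nil _ _, ?_⟩
    · rw [winv_iff]
      intro g _
      apply mem_wstab_lev
      intro l hl
      rw [LinearMap.comp_apply, LinearMap.comp_apply]
      congr 1
      rw [Submodule.mkQ_apply, Submodule.mkQ_apply, Submodule.Quotient.eq]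
      exact Submodule.subset_span ⟨g, l, hl, rfl⟩
    · intro l hl
      rw [lev_apply (bd_sg_mem_deg (n := n + 1) hl)]
      have h2 := LinearMap.congr_fun hf ⟨sg l, sg_mem_deg hl⟩
      exact h2.symm

/-- The top class of a torsion-free nilpotent group of Hirsch length `k + 1`. -/
theorem exists_top {N : Type} [Group N] {k : ℕ} (h : HasSeries N (k + 1)) :
    ∃ (z : Ch N) (ν : Ch N →ₗ[ℝ] ℝ), z ∈ Deg (G := N) (k + 2) ∧
      (∀ E : Ch N →ₗ[ℝ] ℝ, InvUnder (MonoidHom.id N) E → E (bd z) = 0) ∧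
      InvUnder (MonoidHom.id N) ν ∧ Closed (k + 2) ν ∧ ν z = 1 := by
  obtain ⟨S, h0, hd, hS⟩ := h
  obtain ⟨_, _, _, ν, hν⟩ := all_steps S h0 hS (k + 1) le_rfl
  rw [hd] at hν
  obtain ⟨z, hz1, hz2, hz3⟩ := exists_cycle (n := k) ν hν.ne
  exact ⟨z, ν, hz1, hz2, fun g l => hν.inv g (Subgroup.mem_top g) l, hν.closed, hz3⟩

end Pool.Agent.H36Top
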