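import Pool.Agent.H36PDN.Gen
import Pool.Agent.H36Top.Series
import Pool.Agent.H9Nil.Main
import Pool.Agent.H9Nil.Rank

set_option autoImplicit false

namespace Pool.Agent.H36Top

open Pool.Agent.AutDim3 Pool.Agent.H36PDN Pool.Agent.H9Nil

/-- Torsion-free nilpotent subgroups of Hirsch length `k + 1` of automatic groups with duality in
dimension `k + 2` are commutative. -/
theorem comm_of_series {N G : Type} [Group N] [Group G] {k : ℕ} (hG : IsAutomatic G)
    (hd : Duality k G) (φ : N →* G) (hφ : Function.Injective φ) (h : HasSeries N (k + 1)) :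
    ∀ a b : N, a * b = b * a := by
  by_contra hcon
  push Not at hcon
  obtain ⟨C⟩ := exists_comb G hG
  obtain ⟨z, ν, hz, cyc, hi, hc, h1⟩ := exists_top h
  haveI := series_nilpotent h
  haveI := series_fg h
  have hr := rank_lt h hcon
  have hv := nil_vanish C φ hr z hz cyc
  have := gen_zero hG hd C φ hφ z hz cyc (fun F a b c => hv F a b c) ν hi hc
  rw [h1] at this
  exact one_ne_zero this

end Pool.Agent.H36Top
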