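import Pool.Agent.H36Top.Comm
import Pool.Agent.H9Nil.Inter

set_option autoImplicit false

namespace Pool.Agent.H36Top

open Pool.Agent.AutDim3 Pool.Agent.H36PDN

/-- In an automatic group with duality in dimension `k + 2`, torsion-free nilpotent subgroups of Hirsch
length `k + 1` meet the commutator subgroups of nilpotent subgroups trivially. -/
theorem inter_trivial {G : Type} [Group G] {k : ℕ} (hG : IsAutomatic G) (hd : Duality k G)
    (K H : Subgroup G) (hK : HasSeries K (k + 1)) (hH : Group.IsNilpotent H) (z : G) (hzK : z ∈ K)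
    (hzH : z ∈ ⁅H, H⁆) : z = 1 := by
  by_contra hz
  obtain ⟨C⟩ := exists_comb G hG
  have hc := comm_of_series hG hd K.subtype K.subtype_injective hK
  obtain ⟨θ, y, ν, hθ, hy, cyc, hv, hi, hcl, h1⟩ := Pool.Agent.H9Nil.exists_dead C hK hc K.subtype
    ⟨z, hzK⟩ (fun h => hz (congrArg Subtype.val h)) H hH hzH
  have h2 := gen_zero hG hd C (K.subtype.comp θ) (by
    rw [MonoidHom.coe_comp]
    exact K.subtype_injective.comp hθ) y hy cyc (fun F a b c => hv F a b c) ν hi hcl
  rw [h1] at h2
  exact one_ne_zero h2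

end Pool.Agent.H36Top
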