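import Mathlib
import Pool.Agent.H9DimN.WideDefs
import Pool.Agent.H36Top.SeriesDefs

set_option autoImplicit false

/-!
# Subgroups of Hirsch length `m + 3`, and subgroups commuting with a large free abelian group
-/

namespace Pool.Agent.H36Top

open Pool.Agent.H9DimN

/-- Either `m = 0` (then there is no condition on `H`), or a free abelian subgroup of rank `m + 1` of
`G` commutes with `H`, or `H` has a subgroup `N` of finite index which is finitely generated
torsion-free nilpotent of Hirsch length `m + 3`. -/
def Large {G : Type} [Group G] (m : ℕ) (H : Subgroup G) : Prop :=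
  Wide m H ∨ ∃ N : Subgroup G, N ≤ H ∧ (N.subgroupOf H).index ≠ 0 ∧ HasSeries N (m + 3)

end Pool.Agent.H36Top
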