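import Pool.Agent.H9DimN.Wide
import Pool.Agent.H36Top.LargeDefs

set_option autoImplicit false

namespace Pool.Agent.H36Top

open Pool.Agent.AutDim3 Pool.Agent.H9DimN

theorem virtually_abelian_of_large {G : Type} [Group G] (m : ℕ)
    (hno : ∀ Φ : HZ m →* G, Function.Injective Φ → False)
    (hser : ∀ N : Subgroup G, HasSeries N (m + 3) →
      ∃ A : Subgroup G, A ≤ N ∧ A.relIndex N ≠ 0 ∧ ∀ a ∈ A, ∀ b ∈ A, a * b = b * a)
    (H : Subgroup G) (hl : Large m H) (hH : Group.IsNilpotent H)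
    (h : H.FG ∨ ∃ T : Subgroup G, T.relIndex H ≠ 0 ∧ ∀ g ∈ T, g ≠ 1 → ¬ IsOfFinOrder g) :
    ∃ A : Subgroup G, A ≤ H ∧ (A.subgroupOf H).index ≠ 0 ∧
      ∀ a ∈ A, ∀ b ∈ A, a * b = b * a := by
  rcases hl with hw | ⟨N, hN, hi, hs⟩
  · exact virtually_abelian_of_no_hz m hno H hw hH h
  · obtain ⟨A, hA, hAi, hAc⟩ := hser N hs
    refine ⟨A, hA.trans hN, ?_, hAc⟩
    have h1 : A.relIndex H ≠ 0 := by
      rw [← Subgroup.relIndex_mul_relIndex A N H hA hN]
      exact mul_ne_zero hAi hi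
    exact h1

/-- The form of the hypothesis for commutative subgroups. -/
theorem rel_of_comm {G : Type} [Group G] {N : Subgroup G} (h : ∀ a b : N, a * b = b * a) :
    ∃ A : Subgroup G, A ≤ N ∧ A.relIndex N ≠ 0 ∧ ∀ a ∈ A, ∀ b ∈ A, a * b = b * a := by
  refine ⟨N, le_rfl, ?_, fun a ha b hb => ?_⟩
  · rw [Subgroup.relIndex_self]
    exact one_ne_zero
  · have := h ⟨a, ha⟩ ⟨b, hb⟩
    simpa using congrArg Subtype.val this

end Pool.Agent.H36Top
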