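import Pool.Agent.AutDim3.Chain

set_option autoImplicit false
set_option linter.unusedSectionVars false

/-!
# The Wang sequence for functionals invariant under the members of a central series
-/

namespace Pool.Agent.H36Top

open Pool.Agent.AutDim3

variable {N : Type} [Group N]

/-- Invariance under a subgroup. -/
def WInv (S : Subgroup N) (F : Ch N →ₗ[ℝ] ℝ) : Prop :=
  ∀ s ∈ S, ∀ l : List N, F (sg (l.map (s * ·))) = F (sg l)

theorem winv_apply {S : Subgroup N} {F : Ch N →ₗ[ℝ] ℝ} (h : WInv S F) {s : N}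
    (hs : s ∈ S) (w : Ch N) : F (push (s * ·) w) = F w := by
  have : F ∘ₗ push (s * ·) = F := by
    apply ext_sg
    intro l
    rw [LinearMap.comp_apply, push_sg]
    exact h s hs l
  exact LinearMap.congr_fun this w

theorem map_mul_map (g h : N) (l : List N) :
    (l.map (h * ·)).map (g * ·) = l.map (g * h * ·) := by
  rw [List.map_map]
  congr 1
  funext p
  simp [mul_assoc]

theorem map_one_mul (l : List N) : l.map ((1 : N) * ·) = l := by
  simp

/-- The stabiliser of a functional. -/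
def wstab (F : Ch N →ₗ[ℝ] ℝ) : Subgroup N where
  carrier := {g | ∀ l : List N, F (sg (l.map (g * ·))) = F (sg l)}
  mul_mem' := by
    intro g h hg hh l
    have h1 := hg (l.map (h * ·))
    rw [map_mul_map] at h1
    exact h1.trans (hh l)
  one_mem' := by
    intro l
    rw [map_one_mul]
  inv_mem' := by
    intro g hg l
    have h1 := hg (l.map (g⁻¹ * ·))
    rw [map_mul_map, mul_inv_cancel, map_one_mul] at h1
    exact h1.symm

theorem winv_iff {S : Subgroup N} {F : Ch N →ₗ[ℝ] ℝ} :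
    WInv S F ↔ S ≤ wstab F := Iff.rfl

/-- The functional with given values on lists. -/
noncomputable def fnl (f : List N → ℝ) : Ch N →ₗ[ℝ] ℝ :=
  Finsupp.linearCombination ℝ f

theorem fnl_sg (f : List N → ℝ) (l : List N) : fnl f (sg l) = f l := by
  simp [fnl, sg]

/-- Solution of a difference equation. -/
noncomputable def wsol (p : ℤ → ℝ) (k : ℤ) : ℝ :=
  (∑ i ∈ Finset.Ico k 0, p i) - ∑ i ∈ Finset.Ico 0 k, p i

theorem wsol_zero (p : ℤ → ℝ) : wsol p 0 = 0 := by
  simp [wsol]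

theorem wsol_sub (p : ℤ → ℝ) (k : ℤ) : wsol p k - wsol p (k + 1) = p k := by
  unfold wsol
  rcases lt_or_ge k 0 with h | h
  · have e1 : Finset.Ico k 0 = insert k (Finset.Ico (k + 1) 0) := by
      ext i
      simp only [Finset.mem_insert, Finset.mem_Ico]
      omega
    have e2 : Finset.Ico 0 k = ∅ := Finset.Ico_eq_empty (by omega)
    have e3 : Finset.Ico 0 (k + 1) = ∅ := Finset.Ico_eq_empty (by omega)
    rw [e1, e2, e3, Finset.sum_insert (by simp)]
    simp
  · have e1 : Finset.Ico 0 (k + 1) = insert k (Finset.Ico 0 k) := by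
      ext i
      simp only [Finset.mem_insert, Finset.mem_Ico]
      omega
    have e2 : Finset.Ico k 0 = ∅ := Finset.Ico_eq_empty (by omega)
    have e3 : Finset.Ico (k + 1) 0 = ∅ := Finset.Ico_eq_empty (by omega)
    rw [e1, e2, e3, Finset.sum_insert (by simp)]
    simp

/-- The coordinate of the first entry. -/
def kap (κ : N → ℤ) : List N → ℤ
  | [] => 0
  | p :: _ => κ p

/-- The data of one step. -/
structure WStep (S S' : Subgroup N) (τ : N) (κ : N → ℤ) : Prop where
  norm : ∀ g : N, ∀ s ∈ S, g * s * g⁻¹ ∈ S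
  kS : ∀ s ∈ S, ∀ p, κ (s * p) = κ p
  kt : ∀ p, κ (τ * p) = κ p + 1
  tmem : τ ∈ S'
  le : S ≤ S'
  le' : S' ≤ S ⊔ Subgroup.zpowers τ

/-- (1) Surjectivity. -/
theorem wang_surj {S S' : Subgroup N} {τ : N} {κ : N → ℤ} (T : WStep S S' τ κ)
    {E' : Ch N →ₗ[ℝ] ℝ} (hE : WInv S E') (h0 : E' (sg []) = 0) : ∃ h : Ch N →ₗ[ℝ] ℝ, WInv S h ∧
      h (sg []) = 0 ∧ ∀ l : List N, h (sg l) - h (sg (l.map (τ * ·))) = E' (sg l) := by
  refine ⟨fnl fun l => wsol (fun m => E' (sg (l.map (τ ^ (m - kap κ l) * ·)))) (kap κ l), ?_, ?_, ?_⟩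
  · intro s hs l
    rw [fnl_sg, fnl_sg]
    have hk : kap κ (l.map (s * ·)) = kap κ l := by
      cases l with
      | nil => rfl
      | cons p l => exact T.kS s hs p
    rw [hk]
    congr 1
    funext m
    rw [map_mul_map]
    have e : τ ^ (m - kap κ l) * s =
        (τ ^ (m - kap κ l) * s * (τ ^ (m - kap κ l))⁻¹) * τ ^ (m - kap κ l) := by group
    rw [e, ← map_mul_map]
    exact hE _ (T.norm _ s hs) _
  · rw [fnl_sg]
    exact wsol_zero _
  · intro l
    rw [fnl_sg, fnl_sg]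
    cases l with
    | nil => rw [h0]; simp [kap]
    | cons p l =>
      have hk : kap κ ((p :: l).map (τ * ·)) = kap κ (p :: l) + 1 := T.kt p
      rw [hk]
      have e : (fun m => E' (sg (((p :: l).map (τ * ·)).map (τ ^ (m - (kap κ (p :: l) + 1)) * ·)))) =
          fun m => E' (sg ((p :: l).map (τ ^ (m - kap κ (p :: l)) * ·))) := by
        funext m
        have e0 : m - (kap κ (p :: l) + 1) + 1 = m - kap κ (p :: l) := by ring
        rw [map_mul_map, ← zpow_add_one, e0]
      rw [e, wsol_sub, sub_self, zpow_zero, map_one_mul]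

/-- Restriction to lists with `n` entries. -/
noncomputable def lev (n : ℕ) (F : Ch N →ₗ[ℝ] ℝ) : Ch N →ₗ[ℝ] ℝ :=
  fnl fun l => if l.length = n then F (sg l) else 0

theorem lev_sg {n : ℕ} {F : Ch N →ₗ[ℝ] ℝ} {l : List N} (h : l.length = n) :
    lev n F (sg l) = F (sg l) := by
  unfold lev
  rw [fnl_sg, if_pos h]

theorem lev_nil (n : ℕ) (F : Ch N →ₗ[ℝ] ℝ) : lev (n + 1) F (sg []) = 0 := by
  unfold lev
  rw [fnl_sg, if_neg (by simp)]

theorem lev_apply {n : ℕ} {F : Ch N →ₗ[ℝ] ℝ} {w : Ch N}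
    (h : w ∈ Deg (G := N) n) : lev n F w = F w :=
  eq_of_sg (lev n F) F (fun _ hl => lev_sg hl) h

theorem mem_wstab_lev {n : ℕ} {F : Ch N →ₗ[ℝ] ℝ} {g : N}
    (h : ∀ l : List N, l.length = n → F (sg (l.map (g * ·))) = F (sg l)) :
    g ∈ wstab (lev n F) := by
  intro l
  by_cases hl : l.length = n
  · rw [lev_sg hl, lev_sg (by simpa using hl)]
    exact h l hl
  · unfold lev
    rw [fnl_sg, fnl_sg, if_neg hl, if_neg (by simpa using hl)]

/-- Exactness for functionals invariant under `S`, on lists with `n` entries. -/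
def WEx (S : Subgroup N) (n : ℕ) (F : Ch N →ₗ[ℝ] ℝ) : Prop :=
  ∃ E : Ch N →ₗ[ℝ] ℝ, WInv S E ∧ E (sg []) = 0 ∧
    ∀ l : List N, l.length = n → F (sg l) = E (bd (sg l))

/-- (2) The Wang step. -/
theorem wang_step {S S' : Subgroup N} {τ : N} {κ : N → ℤ} (T : WStep S S' τ κ)
    {n : ℕ} {F E E' : Ch N →ₗ[ℝ] ℝ} (hES : WInv S E) (hE'S : WInv S E')
    (hE'0 : E' (sg []) = 0)
    (hFE : ∀ l : List N, l.length = n + 2 → F (sg l) = E (bd (sg l)))
    (hEE' : ∀ l : List N, l.length = n + 1 →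
      E (sg l) - E (sg (l.map (τ * ·))) = E' (bd (sg l))) :
    WEx S' (n + 2) F := by
  obtain ⟨h, hhS, hh0, hh⟩ := wang_surj T hE'S hE'0
  refine ⟨lev (n + 1) (E - h ∘ₗ bd), ?_, lev_nil _ _, ?_⟩
  · rw [winv_iff]
    refine le_trans T.le' (sup_le ?_ ?_)
    · intro s hs
      apply mem_wstab_lev
      intro l _
      rw [LinearMap.sub_apply, LinearMap.sub_apply, LinearMap.comp_apply, LinearMap.comp_apply,
        hES s hs, ← push_sg, ← push_bd, winv_apply hhS hs]
    · rw [Subgroup.zpowers_le]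
      apply mem_wstab_lev
      intro l hl
      rw [LinearMap.sub_apply, LinearMap.sub_apply, LinearMap.comp_apply, LinearMap.comp_apply]
      have e1 := hEE' l hl
      have e2 : h (bd (sg l)) - h (push (τ * ·) (bd (sg l))) = E' (bd (sg l)) := by
        have : h - h ∘ₗ push (τ * ·) = E' := by
          apply ext_sg
          intro m
          rw [LinearMap.sub_apply, LinearMap.comp_apply, push_sg]
          exact hh m
        exact LinearMap.congr_fun this _
      rw [← push_sg (τ * ·) l, ← push_bd]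
      rw [← push_sg (τ * ·) l] at e1
      linarith
  · intro l hl
    rw [lev_apply (bd_sg_mem_deg (n := n + 1) hl), LinearMap.sub_apply, LinearMap.comp_apply,
      bd_bd_sg, map_zero, sub_zero]
    exact hFE l hl

/-- Vanishing. -/
def Van (S : Subgroup N) (n : ℕ) : Prop :=
  ∀ F : Ch N →ₗ[ℝ] ℝ, WInv S F → Closed n F → WEx S n F

/-- Dimension at most one. -/
def DimOne (S : Subgroup N) (n : ℕ) : Prop :=
  ∀ F₁ F₂ : Ch N →ₗ[ℝ] ℝ, WInv S F₁ → WInv S F₂ → Closed n F₁ → Closed n F₂ →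
    ∃ c₁ c₂ : ℝ, (c₁ ≠ 0 ∨ c₂ ≠ 0) ∧ WEx S n (c₁ • F₁ + c₂ • F₂)

theorem van_bot (n : ℕ) : Van (⊥ : Subgroup N) (n + 2) := by
  intro F _ hF
  refine ⟨lev (n + 1) (F ∘ₗ cone 1), ?_, lev_nil _ _, ?_⟩
  · intro s hs l
    rw [Subgroup.mem_bot] at hs
    rw [hs, map_one_mul]
  · intro l hl
    rw [lev_apply (bd_sg_mem_deg (n := n + 1) hl)]
    have h1 := hF (1 :: l) (by simp [hl])
    rw [bd_cons, map_sub, sub_eq_zero] at h1
    exact h1

theorem dim_bot : DimOne (⊥ : Subgroup N) 1 := by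
  intro F₁ F₂ _ _ hc₁ hc₂
  have key : ∀ F : Ch N →ₗ[ℝ] ℝ, Closed 1 F → ∀ p, F (sg [p]) = F (sg [1]) := by
    intro F hc p
    have := hc [1, p] rfl
    simp only [bd_cons, bd_nil, map_zero, sub_zero, map_sub, cone_sg] at this
    linarith
  obtain ⟨c₁, c₂, hc, hck⟩ : ∃ c₁ c₂ : ℝ, (c₁ ≠ 0 ∨ c₂ ≠ 0) ∧
      c₁ * F₁ (sg [1]) + c₂ * F₂ (sg [1]) = 0 := by
    by_cases h : F₁ (sg [1]) = 0
    · exact ⟨1, 0, Or.inl one_ne_zero, by rw [h]; ring⟩
    · exact ⟨F₂ (sg [1]), -F₁ (sg [1]), Or.inr (neg_ne_zero.2 h), by ring⟩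
  refine ⟨c₁, c₂, hc, 0, fun s _ l => rfl, rfl, ?_⟩
  intro l hl
  match l, hl with
  | [p], _ =>
    simp only [LinearMap.add_apply, LinearMap.smul_apply, smul_eq_mul, LinearMap.zero_apply]
    rw [key F₁ hc₁ p, key F₂ hc₂ p, hck]

/-- the difference of a functional and its translate -/
theorem diff_props {S S' : Subgroup N} {τ : N} {κ : N → ℤ} (T : WStep S S' τ κ)
    {n : ℕ} {F E : Ch N →ₗ[ℝ] ℝ} (hF : WInv S' F) (hES : WInv S E)
    (hFE : ∀ l : List N, l.length = n + 1 → F (sg l) = E (bd (sg l))) :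
    WInv S (E - E ∘ₗ push (τ * ·)) ∧ Closed n (E - E ∘ₗ push (τ * ·)) := by
  constructor
  · intro s hs l
    rw [LinearMap.sub_apply, LinearMap.sub_apply, LinearMap.comp_apply, LinearMap.comp_apply,
      hES s hs, push_sg, push_sg, map_mul_map]
    have e : τ * s = (τ * s * τ⁻¹) * τ := by group
    rw [e, ← map_mul_map, hES _ (T.norm τ s hs)]
  · intro l hl
    rw [LinearMap.sub_apply, LinearMap.comp_apply, push_bd, push_sg, ← hFE l hl,
      ← hFE _ (by simpa using hl), hF τ T.tmem, sub_self]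

theorem van_step {S S' : Subgroup N} {τ : N} {κ : N → ℤ} (T : WStep S S' τ κ)
    {n : ℕ} (h1 : Van S (n + 2)) (h2 : Van S (n + 1)) : Van S' (n + 2) := by
  intro F hF hc
  obtain ⟨E, hE, hE0, hFE⟩ := h1 F (fun s hs => hF s (T.le hs)) hc
  obtain ⟨hD1, hD2⟩ := diff_props T hF hE hFE
  obtain ⟨E', hE', hE'0, hEE'⟩ := h2 _ hD1 hD2
  refine wang_step T hE hE' hE'0 hFE fun l hl => ?_
  have := hEE' l hl
  rwa [LinearMap.sub_apply, LinearMap.comp_apply, push_sg] at this

theorem dim_step {S S' : Subgroup N} {τ : N} {κ : N → ℤ} (T : WStep S S' τ κ)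
    {n : ℕ} (h1 : Van S (n + 2)) (h2 : DimOne S (n + 1)) : DimOne S' (n + 2) := by
  intro F₁ F₂ hF₁ hF₂ hc₁ hc₂
  obtain ⟨E₁, hE₁, hE₁0, hFE₁⟩ := h1 F₁ (fun s hs => hF₁ s (T.le hs)) hc₁
  obtain ⟨E₂, hE₂, hE₂0, hFE₂⟩ := h1 F₂ (fun s hs => hF₂ s (T.le hs)) hc₂
  obtain ⟨hD1, hD2⟩ := diff_props T hF₁ hE₁ hFE₁
  obtain ⟨hD3, hD4⟩ := diff_props T hF₂ hE₂ hFE₂
  obtain ⟨c₁, c₂, hc, E', hE', hE'0, hEE'⟩ := h2 _ _ hD1 hD3 hD2 hD4
  refine ⟨c₁, c₂, hc, ?_⟩
  exact wang_step T (n := n) (F := c₁ • F₁ + c₂ • F₂) (E := c₁ • E₁ + c₂ • E₂)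
    (E' := E') (fun s hs l => by
      simp only [LinearMap.add_apply, LinearMap.smul_apply]
      rw [hE₁ s hs, hE₂ s hs]) hE' hE'0 (fun l hl => by
      simp only [LinearMap.add_apply, LinearMap.smul_apply]
      rw [hFE₁ l hl, hFE₂ l hl]) (fun l hl => by
      have := hEE' l hl
      simp only [LinearMap.add_apply, LinearMap.smul_apply, LinearMap.sub_apply,
        LinearMap.comp_apply, push_sg, smul_eq_mul] at this ⊢
      linarith)

/-- A top class: an invariant cocycle on lists with `n` entries which is not exact and whose class is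
fixed by `N`. -/
structure Top (S : Subgroup N) (n : ℕ) (ν : Ch N →ₗ[ℝ] ℝ) : Prop where
  inv : WInv S ν
  closed : Closed n ν
  fixed : ∀ g : N, WEx S n (ν ∘ₗ push (g * ·) - ν)
  ne : ¬ WEx S n ν

theorem top_bot : ∃ ν : Ch N →ₗ[ℝ] ℝ, Top (⊥ : Subgroup N) 1 ν := by
  refine ⟨fnl fun _ => 1, ?_, ?_, ?_, ?_⟩
  · intro s _ l
    rw [fnl_sg, fnl_sg]
  · intro l hl
    match l, hl with
    | [p, q], _ =>
      simp only [bd_cons, bd_nil, map_zero, sub_zero, map_sub, cone_sg, fnl_sg, sub_self]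
  · intro g
    refine ⟨0, fun s _ l => rfl, rfl, ?_⟩
    intro l _
    rw [LinearMap.sub_apply, LinearMap.comp_apply, push_sg, fnl_sg, fnl_sg, sub_self,
      LinearMap.zero_apply]
  · rintro ⟨E, _, hE0, hE⟩
    have := hE [1] rfl
    rw [fnl_sg, bd_cons, bd_nil, map_zero, sub_zero, hE0] at this
    exact one_ne_zero this

/-- The inductive step for top classes. -/
theorem top_step {S S' : Subgroup N} {τ : N} {κ : N → ℤ} (T : WStep S S' τ κ)
    (hcent : ∀ g : N, g * τ * g⁻¹ * τ⁻¹ ∈ S) {n : ℕ}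
    (hd : DimOne S (n + 1)) {ν : Ch N →ₗ[ℝ] ℝ} (hν : Top S (n + 1) ν) :
    ∃ ν' : Ch N →ₗ[ℝ] ℝ, Top S' (n + 2) ν' := by
  -- make `ν` vanish on the empty list
  obtain ⟨h, hhS, hh0, hh⟩ := wang_surj T (E' := lev (n + 1) ν) (by
    rw [winv_iff]
    intro s hs
    apply mem_wstab_lev
    intro l _
    exact hν.inv s hs l) (lev_nil _ _)
  have hpush : ∀ w ∈ Deg (G := N) (n + 1), h w - h (push (τ * ·) w) = ν w := by
    intro w hw
    have : h - h ∘ₗ push (τ * ·) = lev (n + 1) ν := by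
      apply ext_sg
      intro m
      rw [LinearMap.sub_apply, LinearMap.comp_apply, push_sg]
      exact hh m
    rw [← lev_apply (F := ν) hw, ← this]
    rfl
  have hinv : WInv S' (lev (n + 2) (h ∘ₗ bd)) := by
    rw [winv_iff]
    refine le_trans T.le' (sup_le ?_ ?_)
    · intro s hs
      apply mem_wstab_lev
      intro l _
      rw [LinearMap.comp_apply, LinearMap.comp_apply, ← push_sg, ← push_bd, winv_apply hhS hs]
    · rw [Subgroup.zpowers_le]
      apply mem_wstab_lev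
      intro l hl
      rw [LinearMap.comp_apply, LinearMap.comp_apply, ← push_sg, ← push_bd]
      have e1 := hpush _ (bd_sg_mem_deg (n := n + 1) hl)
      have e2 := hν.closed l hl
      rw [e2] at e1
      linarith
  refine ⟨lev (n + 2) (h ∘ₗ bd), hinv, ?_, ?_, ?_⟩
  · intro l hl
    rw [lev_apply (bd_sg_mem_deg (n := n + 2) hl), LinearMap.comp_apply, bd_bd_sg, map_zero]
  · intro g
    obtain ⟨E, hE, hE0, hEν⟩ := hν.fixed g
    refine wang_step T (n := n) (E := h ∘ₗ push (g * ·) - h) (E' := E) ?_ hE hE0 ?_ ?_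
    · intro s hs l
      rw [LinearMap.sub_apply, LinearMap.sub_apply, LinearMap.comp_apply, LinearMap.comp_apply,
        hhS s hs, push_sg, push_sg, map_mul_map]
      have e : g * s = (g * s * g⁻¹) * g := by group
      rw [e, ← map_mul_map, hhS _ (T.norm g s hs)]
    · intro l hl
      have hl' : (l.map (g * ·)).length = n + 2 := by simpa using hl
      rw [LinearMap.sub_apply, LinearMap.comp_apply, push_sg, lev_sg hl, lev_sg hl',
        LinearMap.comp_apply, LinearMap.comp_apply, LinearMap.sub_apply, LinearMap.comp_apply,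
        push_bd, push_sg]
    · intro l hl
      have e1 := hEν l hl
      rw [← e1]
      simp only [LinearMap.sub_apply, LinearMap.comp_apply, push_sg]
      have hl' : (l.map (g * ·)).length = n + 1 := by simpa using hl
      have e2 := hh l
      have e3 := hh (l.map (g * ·))
      rw [lev_sg hl] at e2
      rw [lev_sg hl'] at e3
      have e4 : h (sg ((l.map (τ * ·)).map (g * ·))) = h (sg ((l.map (g * ·)).map (τ * ·))) := by
        rw [map_mul_map, map_mul_map]
        have e : g * τ = (g * τ * g⁻¹ * τ⁻¹) * (τ * g) := by group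
        rw [e, ← map_mul_map, hhS _ (hcent g)]
      rw [e4]
      linarith
  · rintro ⟨E, hE, hE0, hEν⟩
    apply hν.ne
    -- the difference is a cocycle
    have hcl : Closed (n + 1) (h - E) := by
      intro l hl
      have e1 := hEν l hl
      rw [lev_sg hl, LinearMap.comp_apply] at e1
      rw [LinearMap.sub_apply, e1, sub_self]
    have hSi : WInv S (h - E) := by
      intro s hs l
      rw [LinearMap.sub_apply, LinearMap.sub_apply, hhS s hs, hE s (T.le hs)]
    obtain ⟨c₁, c₂, hc, E₁, hE₁, hE₁0, hE₁'⟩ := hd (h - E) ν hSi hν.inv hcl hν.closed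
    have hc₁ : c₁ ≠ 0 := by
      intro h0
      rw [h0] at hc
      have hc₂ : c₂ ≠ 0 := by
        rcases hc with h' | h'
        · exact absurd rfl h'
        · exact h'
      apply hν.ne
      refine ⟨c₂⁻¹ • E₁, ?_, ?_, ?_⟩
      · intro s hs l
        rw [LinearMap.smul_apply, LinearMap.smul_apply, hE₁ s hs]
      · rw [LinearMap.smul_apply, hE₁0, smul_zero]
      · intro l hl
        have e1 := hE₁' l hl
        rw [h0] at e1
        simp only [zero_smul, zero_add, LinearMap.smul_apply, smul_eq_mul] at e1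
        rw [LinearMap.smul_apply, ← e1, smul_eq_mul, inv_mul_cancel_left₀ hc₂]
    obtain ⟨E₂, hE₂, hE₂0, hE₂'⟩ := hν.fixed τ
    refine ⟨c₁⁻¹ • (E₁ - E₁ ∘ₗ push (τ * ·) + c₂ • E₂), ?_, ?_, ?_⟩
    · intro s hs l
      simp only [LinearMap.smul_apply, LinearMap.add_apply, LinearMap.sub_apply,
        LinearMap.comp_apply]
      rw [hE₁ s hs, hE₂ s hs, push_sg, push_sg, map_mul_map]
      have e : τ * s = (τ * s * τ⁻¹) * τ := by group
      rw [e, ← map_mul_map, hE₁ _ (T.norm τ s hs)]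
    · simp only [LinearMap.smul_apply, LinearMap.add_apply, LinearMap.sub_apply,
        LinearMap.comp_apply, push_sg, List.map_nil, hE₂0, sub_self, smul_zero, add_zero]
    · intro l hl
      have hl' : (l.map (τ * ·)).length = n + 1 := by simpa using hl
      have e1 := hE₁' l hl
      have e2 := hE₁' (l.map (τ * ·)) hl'
      have e3 := hE₂' l hl
      have e4 := hh l
      rw [lev_sg hl] at e4
      have e5 : E (sg (l.map (τ * ·))) = E (sg l) := hE τ T.tmem l
      simp only [LinearMap.smul_apply, LinearMap.add_apply, LinearMap.sub_apply,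
        LinearMap.comp_apply, push_sg, smul_eq_mul] at e1 e2 e3 ⊢
      rw [push_bd, push_sg, ← e1, ← e2, ← e3, e5]
      field_simp
      linear_combination (-c₁) * e4

end Pool.Agent.H36Top
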